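import Pool.Agent.H25.PolyDual

set_option autoImplicit false

namespace Pool.Agent.Results.MP_51bff2_lc.PolyBound
open Finset Pool.Agent.H25.PolyDual

/-- the polynomial with monomials indexed by `Fin m`, supports `S`, coefficients `a`, exponents `d` -/
def f {n m : ℕ} (S : Fin m → Finset (Fin n)) (a : Fin m → ℚ) (d : Fin m → Fin n → ℕ)
    (x : Fin n → ℕ) : ℝ :=
  ∑ H, (a H : ℝ) * ∏ j ∈ S H, (x j : ℝ) ^ d H j

/-- the maximal feasible vectors of `p x ≤ t` in the box below `c` -/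
def F {n : ℕ} (p : (Fin n → ℕ) → ℝ) (t : ℝ) (c : Fin n → ℕ) : Set (Fin n → ℕ) :=
  {x | x ≤ c ∧ p x ≤ t ∧ ∀ j, ¬ x + Pi.single j 1 ≤ c ∨ t < p (x + Pi.single j 1)}

/-- the minimal vectors of the box below `c` that lie below no member of `A` -/
def I {n : ℕ} (c : Fin n → ℕ) (A : Set (Fin n → ℕ)) : Set (Fin n → ℕ) :=
  {x | Minimal (fun x => x ≤ c ∧ ∀ y ∈ A, ¬ x ≤ y) x}

theorem ext_max {n : ℕ} (p : (Fin n → ℕ) → ℝ) (t : ℝ) (c x : Fin n → ℕ) (hx : x ≤ c)
    (h : p x ≤ t) : ∃ y ∈ F p t c, x ≤ y := by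
  classical
  obtain ⟨y, hy, hm⟩ := exists_max_image ((Iic c).filter fun y => x ≤ y ∧ p y ≤ t)
    (fun y => ∑ j, y j) ⟨x, by simp [hx, h]⟩
  simp only [mem_filter, mem_Iic] at hy hm
  refine ⟨y, ⟨hy.1, hy.2.2, fun j => ?_⟩, hy.2.1⟩
  by_contra hc
  push Not at hc
  have := hm _ ⟨hc.1, hy.2.1.trans le_self_add, hc.2⟩
  simp [sum_add_distrib] at this

theorem result (n m : ℕ) (S : Fin m → Finset (Fin n)) (a : Fin m → ℚ) (ha : ∀ H, 0 < a H)
    (d : Fin m → Fin n → ℕ) (t : ℝ) (c : Fin n → ℕ) (Y : Finset (Fin n → ℕ))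
    (hY : (Y : Set (Fin n → ℕ)) ⊆ F (f S a d) t c) :
    (I c Y ∩ I c (F (f S a d) t c)).encard ≤
      (1 + 2 * m * n ^ 3 * Y.card * (Y.card + 1) ^ 2 : ℕ) := by
  classical
  let ψ : Fin m → Fin n → ℕ → ℝ := fun H j l => if j ∈ S H then (l : ℝ) ^ d H j else 1
  have ok : OK (fun H => (a H : ℝ)) ψ := by
    refine ⟨fun H => by exact_mod_cast (ha H).le, fun H j l => ?_, fun H j l l' e => ?_⟩
    · simp only [ψ]; split_ifs <;> positivity
    · simp only [ψ]; split_ifs
      · gcongr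
      · rfl
  have hf : ∀ x, ∑ H, g (fun H => (a H : ℝ)) ψ H x = f S a d x := fun x => by
    simp only [g, f, ψ, prod_ite_mem, univ_inter]
  have fin : (I c Y ∩ I c (F (f S a d) t c)).Finite :=
    (Set.finite_Iic c).subset fun x hx => hx.1.1.1
  have D : Dat (fun H => (a H : ℝ)) ψ t c Y fin.toFinset := by
    refine ⟨fun y hy => ⟨(hY hy).1, hf y ▸ (hY hy).2.1⟩, fun z hz => ?_, fun z hz j hj => ?_⟩
    · obtain ⟨_, h⟩ := fin.mem_toFinset.1 hz
      refine ⟨h.1.1, hf z ▸ not_le.1 fun k => ?_⟩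
      obtain ⟨y, hy, e⟩ := ext_max _ t c z h.1.1 k
      exact h.1.2 y hy e
    · obtain ⟨h, _⟩ := fin.mem_toFinset.1 hz
      have e1 : Function.update z j (z j - 1) ≤ z := fun i => by
        rw [Function.update_apply]; split_ifs with k
        · rw [k]; exact Nat.sub_le _ _
        · rfl
      have : ∃ y ∈ Y, Function.update z j (z j - 1) ≤ y := by
        by_contra hc
        push Not at hc
        have : z j ≤ Function.update z j (z j - 1) j := h.2 ⟨e1.trans h.1.1, hc⟩ e1 j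
        rw [Function.update_self] at this
        omega
      obtain ⟨y, hy, e⟩ := this
      have e2 : ∀ i, i ≠ j → z i ≤ y i := fun i hi => by
        have : Function.update z j (z j - 1) i ≤ y i := e i
        rwa [Function.update_of_ne hi] at this
      have e3 : Function.update z j (z j - 1) j ≤ y j := e j
      rw [Function.update_self] at e3
      refine ⟨y, hy, ?_, e2⟩
      by_contra hc
      refine h.1.2 y hy fun i => ?_
      by_cases k : i = j
      · exact (show z i ≤ y i by rw [k]; omega)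
      · exact e2 i k
  rw [fin.encard_eq_coe_toFinset_card, Nat.cast_le]
  refine (bound ok D).trans (Nat.add_le_add_left ?_ _)
  have : m * n ≤ m * (n * (n * (Y.card + 1))) := by
    rcases Nat.eq_zero_or_pos n with h | h
    · simp [h]
    · exact Nat.mul_le_mul_left _ (Nat.le_mul_of_pos_right _ (by positivity))
  calc _ ≤ n * (Y.card + 1) * (m * (n * (n * (Y.card + 1))) + m * (n * (n * (Y.card + 1)))) * Y.card := by
        gcongr
    _ = _ := by ring

end Pool.Agent.Results.MP_51bff2_lc.PolyBound
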